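import Mathlib
import Pool.Agent.Lib.MP_9ef1f5_an_companion.Defs
import Pool.Agent.Lib.MP_9ef1f5_an_companion.Main
import Pool.Agent.Lib.MP_9ef1f5_an_companion.Second

set_option autoImplicit false

open scoped Manifold
open Set

namespace Pool.Agent.Results.MP_9ef1f5_an.DiscBoundaryCurve

open Pool.Agent.MP_9ef1f5_an Pool.Agent.H27

/-- There are a Riemann surface `R` whose bounded holomorphic functions separate points and a
closed coordinate disc in `R` such that its boundary circle `Γ = γ(S¹)`, an analytic simple closed
curve, cuts `R` into the open disc and the (connected) outside, so that `R \ Γ` is disconnected,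
but `𝓜(R) \ ι(Γ)` is connected; on this surface the natural embedding `ι` is continuous and
injective, but not a homeomorphism onto its image. -/
theorem result :
    ∃ (R : Type) (_ : TopologicalSpace R) (_ : ChartedSpace ℂ R)
      (e : OpenPartialHomeomorph R ℂ) (γ : Circle → R),
      IsRiemannSurface R ∧ SeparatesPts R ∧
      Continuous γ ∧ Function.Injective γ ∧ IsDiscBoundary e γ ∧
      CutsInto (range γ) (inside e) (outside e) ∧ ¬ IsPreconnected (range γ)ᶜ ∧
      IsConnected (iota '' range γ)ᶜ ∧
      Continuous (iota (R := R)) ∧ Function.Injective (iota (R := R)) ∧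
      ¬ Topology.IsEmbedding (iota (R := R)) := by
  obtain ⟨D⟩ := Pool.Agent.H32Cover.exists_coverData
  exact ⟨Surf D, inferInstance, inferInstance, (bsec D).chart, gam D,
    ⟨inferInstance, inferInstance, inferInstance, inferInstance⟩, Companion.separatesPts,
    continuous_gam, injective_gam, ⟨(bsec D).chart_mem, closedBall_sub, fun _ => rfl⟩,
    ⟨compl_range_gam, disjoint_R1_R2, isOpen_R1, isOpen_R2, Companion.isConnected_R1,
      Companion.isConnected_R2⟩, not_isPreconnected,
    Companion.isConnected_compl_image, Companion.continuous_iota, Companion.injective_iota,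
    Companion.not_isEmbedding_iota⟩

end Pool.Agent.Results.MP_9ef1f5_an.DiscBoundaryCurve
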